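import Mathlib

open Set Filter Topology Function

namespace Pool.Agent.Results.MP_7e6923_gt.NotCech

/-- the remainder `ω*`, as a subspace of the space of ultrafilters -/
abbrev W : Type := {p : Ultrafilter ℕ // (p : Filter ℕ) ≤ cofinite}

def CechComplete (Z : Type) [TopologicalSpace Z] : Prop :=
  IsGδ (range (stoneCechUnit : Z → StoneCech Z))

def st (A : Set ℕ) : Set W := {p | A ∈ p.1}

lemma st_clopen (A : Set ℕ) : IsClopen (st A) :=
  ⟨(ultrafilter_isClosed_basic A).preimage continuous_subtype_val,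
    (ultrafilter_isOpen_basic A).preimage continuous_subtype_val⟩

lemma ex {A : Set ℕ} (h : A.Infinite) : ∃ p, p ∈ st A := by
  have := frequently_mem_iff_neBot.1 (frequently_cofinite_iff_infinite.2 h)
  exact ⟨⟨Ultrafilter.of (cofinite ⊓ 𝓟 A), (Ultrafilter.of_le _).trans inf_le_left⟩,
    Ultrafilter.of_le (cofinite ⊓ 𝓟 A) (mem_inf_of_right (mem_principal_self A))⟩

instance : CompactSpace W := isCompact_iff_compactSpace.1 (IsClosed.isCompact (by
  have : {p : Ultrafilter ℕ | (p : Filter ℕ) ≤ cofinite} = ⋂ A ∈ (cofinite : Filter ℕ), {p | A ∈ p} := by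
    ext p
    simp only [mem_ofPred_eq, mem_iInter]
    rfl
  show IsClosed {p : Ultrafilter ℕ | (p : Filter ℕ) ≤ cofinite}
  exact this ▸ isClosed_biInter fun A _ => ultrafilter_isClosed_basic A))

lemma nh {p : W} {N : Set C(W, W)} (h : N ∈ 𝓝 (ContinuousMap.const W p)) :
    ∃ A ∈ p.1, ∀ g : C(W, W), (∀ x, g x ∈ st A) → g ∈ N := by
  let F : Filter C(W, W) := (p.1 : Filter ℕ).lift' fun A => {g | ∀ x, g x ∈ st A}
  have m : Monotone fun A : Set ℕ => {g : C(W, W) | ∀ x, g x ∈ st A} :=
    fun A B k g hg x => mem_of_superset (f := ((g x).1 : Filter ℕ)) (hg x) k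
  refine (mem_lift'_sets m).1 ((show Tendsto id F _ from ?_) h)
  refine ContinuousMap.tendsto_nhds_compactOpen.2 fun K k U u z => ?_
  rcases K.eq_empty_or_nonempty with rfl | ⟨x, hx⟩
  · exact Eventually.of_forall fun _ => mapsTo_empty _ _
  obtain ⟨V, v, rfl⟩ := isOpen_induced_iff.1 u
  obtain ⟨_, ⟨A, rfl⟩, a1, a2⟩ := ultrafilterBasis_is_basis.exists_subset_of_mem_open (z hx) v
  exact (mem_lift'_sets m).2 ⟨A, a1, fun g hg y _ => a2 (hg y)⟩

theorem result : ¬ CechComplete C(W, W) := by
  classical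
  intro h
  obtain ⟨O, o1, o2⟩ := isGδ_iff_eq_iInter_nat.1 h
  obtain ⟨p, -⟩ := ex infinite_univ
  choose C c1 c2 c3 using fun n => exists_mem_nhds_isClosed_subset ((o1 n).mem_nhds
    (mem_iInter.1 (o2.le (mem_range_self (ContinuousMap.const W p))) n))
  choose A a1 a2 using fun n => nh (continuous_stoneCechUnit.continuousAt (c1 n))
  have : NeBot (cofinite ⊓ ⨅ n, 𝓟 (A n)) := neBot_of_le (f := p.1)
    (le_inf p.2 (le_iInf fun n => le_principal_iff.2 (a1 n)))
  have : (cofinite : Filter ℕ).IsCountablyGenerated := Nat.cofinite_eq_atTop ▸ inferInstance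
  obtain ⟨s, hs⟩ := exists_seq_tendsto (cofinite ⊓ ⨅ n, 𝓟 (A n))
  obtain ⟨φ, φ1, φ2⟩ := strictMono_subseq_of_tendsto_atTop
    (Nat.cofinite_eq_atTop ▸ hs.mono_right inf_le_left)
  have t : ∀ r, Tendsto (fun n => s (φ (2 * n + r))) (hyperfilter ℕ) (cofinite ⊓ ⨅ n, 𝓟 (A n)) :=
    fun r => (hs.comp (φ1.tendsto_atTop.comp (StrictMono.tendsto_atTop (φ := fun n => 2 * n + r)
      fun a b k => by simpa using k))).mono_left Nat.hyperfilter_le_atTop
  let q : ℕ → W := fun r => ⟨(hyperfilter ℕ).map fun n => s (φ (2 * n + r)),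
    (t r).mono_right inf_le_left⟩
  have q1 : ∀ r n, q r ∈ st (A n) := fun r n =>
    t r (mem_inf_of_right (mem_iInf_of_mem n (mem_principal_self _)))
  let D := st (range fun n => s (φ (2 * n + 0)))
  have d0 : q 0 ∈ D := range_mem_map
  have d1 : q 1 ∉ D := fun z => by
    obtain ⟨n, m, hm⟩ := Ultrafilter.nonempty_of_mem (show _ ∈ hyperfilter ℕ from z)
    have := φ2.injective hm
    omega
  let B : ℕ → Set W := fun n => st {k | k.unpair.1 = n}
  let g : ℕ → C(W, W) := fun n => ⟨fun x => if x ∈ B n then q 0 else q 1,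
    Continuous.if (fun a h => ((st_clopen _).frontier_eq.le h).elim)
      continuous_const continuous_const⟩
  have gB : ∀ n, g n ⁻¹' D = B n := fun n => by
    ext x
    by_cases k : x ∈ B n <;> simp [g, k, d0, d1]
  have Bi : Injective B := fun a b k => by
    obtain ⟨x, hx⟩ := ex (A := {k | k.unpair.1 = a})
      (infinite_of_injective_forall_mem (f := Nat.pair a) (fun i j z => by simpa using z) (by simp))
    obtain ⟨n, n1, n2⟩ := Ultrafilter.nonempty_of_mem (inter_mem hx (show x ∈ B b from k ▸ hx))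
    exact n1.symm.trans n2
  let ψ : C(W, W) → OnePoint ℕ := fun f => (invFun B (f ⁻¹' D) : ℕ)
  have ψc : Continuous ψ := by
    refine IsLocallyConstant.continuous (IsLocallyConstant.comp (f := fun f : C(W, W) => f ⁻¹' D)
      ((IsLocallyConstant.iff_eventually_eq _).2 fun f => ?_) fun S => ((invFun B S : ℕ) : OnePoint ℕ))
    have hD : IsClopen D := st_clopen _
    filter_upwards [ContinuousMap.eventually_mapsTo (f := f)
      (hD.1.preimage f.continuous).isCompact hD.2 (mapsTo_preimage _ _),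
      ContinuousMap.eventually_mapsTo (f := f) (hD.compl.1.preimage f.continuous).isCompact
        hD.compl.2 (mapsTo_preimage _ _)] with f' f1 f2
    exact Subset.antisymm (fun x hx => by_contra fun z => f2 z hx) f1
  have k := ((isClosed_iInter c2).isCompact.image (continuous_stoneCechExtend ψc)).isClosed
  obtain ⟨z, z1, z2⟩ := k.mem_of_tendsto (OnePoint.tendsto_coe_infty.mono_left
    (show atTop ≤ _ by simp [Nat.cofinite_eq_atTop])) (Eventually.of_forall fun n =>
      ⟨stoneCechUnit (g n), mem_iInter.2 fun m => a2 m _ fun x => by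
        simp only [g, ContinuousMap.coe_mk]
        split_ifs <;> exact q1 _ _, by
        rw [stoneCechExtend_stoneCechUnit]
        simp only [ψ, gB, leftInverse_invFun Bi n]⟩)
  obtain ⟨f, rfl⟩ := o2.ge (iInter_mono c3 z1)
  rw [stoneCechExtend_stoneCechUnit] at z2
  exact OnePoint.coe_ne_infty _ z2

end Pool.Agent.Results.MP_7e6923_gt.NotCech
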